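import Pool.Agent.H343.QF.StL

set_option autoImplicit false
set_option linter.unusedSectionVars false

/-! # The axioms hold in the group -/

namespace Pool.Agent.H196.QF

open Pool.Agent.H343.QF

section maps

variable {G H : Type} [Group G] [Group H] (f : G →* H)

theorem map_blk (c p : G) (n : ℕ) : f (blk c p n) = blk (f c) (f p) n := by
  induction n with
  | zero => exact map_one f
  | succ n ih =>
    show f (blk c p n * (p ^ (n + 1) * c)) = blk (f c) (f p) n * (f p ^ (n + 1) * f c)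
    rw [map_mul, map_mul, map_pow, ih]

theorem map_Wd (B : ℕ) (a b : G) (k : ℕ) : f (Wd B a b k) = Wd B (f a) (f b) k := by
  unfold Wd
  rw [map_blk, map_pow]

theorem map_Sd (B : ℕ) (b x z p : G) : f (Sd B b x z p) = Sd B (f b) (f x) (f z) (f p) := by
  unfold Sd
  simp only [map_mul, map_pow, map_blk]

theorem map_ltr (a b : G) (k : ℕ) : f (ltr a b k) = ltr (f a) (f b) k := by
  unfold ltr
  split_ifs <;> simp

theorem map_rel (B : ℕ) (ee : ℕ → ℕ) (a b : G) (m : ℕ) :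
    f (rel B ee a b m) = rel B ee (f a) (f b) m := by
  unfold rel
  split_ifs
  · simp only [map_Sd, map_pow]
  · simp only [map_mul, map_inv, map_Wd, map_ltr]

end maps

theorem rel_one (B : ℕ) (m : ℕ) : rel B (eeB B) (ga B) (gb B) m = 1 := by
  have h1 : (QuotientGroup.mk' (KI B (eeB B))) (rel B (eeB B) xa xb m) = 1 := by
    rw [QuotientGroup.mk'_apply, QuotientGroup.eq_one_iff]
    exact Subgroup.subset_normalClosure ⟨m, rfl⟩
  rw [map_rel] at h1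
  exact h1

theorem Sd_one (B t : ℕ) :
    Sd B (gb B) (ga B ^ t) (ga B ^ (t ^ 2)) (ga B ^ eeB B (2 * t)) = 1 := by
  have h1 := rel_one B (2 * t)
  unfold rel at h1
  rw [if_pos (by omega)] at h1
  have h2 : 2 * t / 2 = t := by omega
  rwa [h2] at h1

theorem Wd_cod (B : ℕ) (s : Fin 4) (i : ℕ) :
    Wd B (ga B) (gb B) i * ltr (ga B) (gb B) s = Wd B (ga B) (gb B) (cdR B s i) := by
  have h1 := rel_one B (2 * (4 * i + s) + 1)
  unfold rel at h1
  rw [if_neg (by omega)] at h1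
  have h2 : (2 * (4 * i + (s : ℕ)) + 1) / 2 = 4 * i + s := by omega
  have h3 : (4 * i + (s : ℕ)) / 4 = i := by have := s.isLt; omega
  rw [h2, h3, mul_inv_eq_one] at h1
  have h4 : ltr (ga B) (gb B) (4 * i + s) = ltr (ga B) (gb B) s := by
    unfold ltr
    have h5 : (4 * i + (s : ℕ)) % 4 = (s : ℕ) % 4 := by omega
    rw [h5]
  rw [h4] at h1
  exact h1.symm

theorem gen_ind (B : ℕ) (P : GG B → Prop) (h0 : ∃ g, P g) (ha : ∀ g, P g → P (g * ga B))
    (ha' : ∀ g, P g → P (g * (ga B)⁻¹)) (hb : ∀ g, P g → P (g * gb B))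
    (hb' : ∀ g, P g → P (g * (gb B)⁻¹)) (g : GG B) : P g := by
  obtain ⟨g0, hg0⟩ := h0
  have key : ∀ w : F2, ∀ g, P g → P (g * (w : GG B)) := by
    intro w
    induction w using FreeGroup.induction_on with
    | C1 => intro g hg; rw [QuotientGroup.mk_one, mul_one]; exact hg
    | of i =>
      intro g hg
      fin_cases i
      · exact ha g hg
      · exact hb g hg
    | inv_of i hi =>
      intro g hg
      fin_cases i
      · exact ha' g hg
      · exact hb' g hg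
    | mul x y hx hy =>
      intro g hg
      rw [QuotientGroup.mk_mul, ← mul_assoc]
      exact hy _ (hx _ hg)
  obtain ⟨w, hw⟩ := QuotientGroup.mk_surjective (g0⁻¹ * g)
  have h1 := key w g0 hg0
  rwa [hw, mul_inv_cancel_left] at h1

theorem Wd_sur (B : ℕ) (g : GG B) : ∃ k : ℕ, g = Wd B (ga B) (gb B) k := by
  refine gen_ind B (fun g => ∃ k : ℕ, g = Wd B (ga B) (gb B) k) ⟨_, 0, rfl⟩ ?_ ?_ ?_ ?_ g
  · rintro _ ⟨k, rfl⟩
    exact ⟨_, Wd_cod B 0 k⟩
  · rintro _ ⟨k, rfl⟩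
    exact ⟨_, Wd_cod B 1 k⟩
  · rintro _ ⟨k, rfl⟩
    exact ⟨_, Wd_cod B 2 k⟩
  · rintro _ ⟨k, rfl⟩
    exact ⟨_, Wd_cod B 3 k⟩

theorem LleG_ex (B : ℕ) (g : GG B) : ∃ n, LleG B g n := by
  obtain ⟨w, rfl⟩ := QuotientGroup.mk_surjective g
  refine ⟨w.toWord.length, w.toWord, le_rfl, ?_⟩
  rw [FreeGroup.mk_toWord]

theorem LleG_mul (B : ℕ) (g h : GG B) (m n : ℕ) (hg : LleG B g m) (hh : LleG B h n) :
    LleG B (g * h) (m + n) := by
  obtain ⟨l, hl, rfl⟩ := hg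
  obtain ⟨l', hl', rfl⟩ := hh
  refine ⟨l ++ l', ?_, ?_⟩
  · rw [List.length_append]; omega
  · rw [← FreeGroup.mul_mk, QuotientGroup.mk_mul]

theorem LleG_inv (B : ℕ) (g : GG B) (n : ℕ) (hg : LleG B g n) : LleG B g⁻¹ n := by
  obtain ⟨l, hl, rfl⟩ := hg
  refine ⟨FreeGroup.invRev l, ?_, ?_⟩
  · rwa [FreeGroup.invRev_length]
  · rw [← FreeGroup.inv_mk, QuotientGroup.mk_inv]

theorem LleG_mono (B : ℕ) (g : GG B) (m n : ℕ) (hmn : m ≤ n) (hg : LleG B g m) : LleG B g n := by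
  obtain ⟨l, hl, rfl⟩ := hg
  exact ⟨l, hl.trans hmn, rfl⟩

theorem LleG_fin (B n : ℕ) : {g : GG B | LleG B g n}.Finite := by
  have h1 : {l : List (Fin 2 × Bool) | l.length ≤ n}.Finite := List.finite_length_le _ n
  refine (h1.image fun l => ((FreeGroup.mk l : F2) : GG B)).subset ?_
  rintro g ⟨l, hl, rfl⟩
  exact ⟨l, hl, rfl⟩

theorem axG : S_axG := by
  intro B hB hcen hinf hsq
  have hinj : ∀ i j : ℤ, ga B ^ i = ga B ^ j → i = j := by
    intro i j hij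
    have h1 : ga B ^ (i - j) = 1 := by rw [zpow_sub, hij, mul_inv_cancel]
    have := hinf _ h1
    omega
  have hcm : ∀ y, CmR (ga B) y ↔ ∃ e : ℤ, y = ga B ^ e := by
    intro y
    constructor
    · intro hy
      obtain ⟨e, he⟩ := Subgroup.mem_zpowers_iff.1 (hcen y hy)
      exact ⟨e, he.symm⟩
    · rintro ⟨e, rfl⟩
      show ga B ^ e * ga B = ga B * ga B ^ e
      rw [← zpow_add_one, ← zpow_one_add, add_comm]
  have hsqR : ∀ i j : ℤ, SqR B (gb B) (ga B) (ga B ^ i) (ga B ^ j) ↔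
      ∃ t : ℕ, i = t ∧ j = (t : ℤ) ^ 2 := by
    intro i j
    constructor
    · rintro ⟨-, -, p, hp, h1⟩
      obtain ⟨k, rfl⟩ := (hcm p).1 hp
      exact hsq i j k h1
    · rintro ⟨t, rfl, rfl⟩
      refine ⟨(hcm _).2 ⟨_, rfl⟩, (hcm _).2 ⟨_, rfl⟩, ga B ^ ((eeB B (2 * t) : ℕ) : ℤ),
        (hcm _).2 ⟨_, rfl⟩, ?_⟩
      have h1 := Sd_one B t
      have h2 : ga B ^ ((t : ℤ) ^ 2) = ga B ^ (t ^ 2) := by
        rw [← zpow_natCast]; push_cast; rfl
      rw [zpow_natCast, zpow_natCast, h2]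
      exact h1
  have hstd : StdR B (gb B) (ga B) := ⟨hcm, hinf, hsqR⟩
  have hnm : ∀ x, NmR B (gb B) (ga B) x ↔ ∃ n : ℕ, x = ga B ^ n := by
    intro x
    constructor
    · rintro ⟨z, hz⟩
      obtain ⟨i, rfl⟩ := (hcm x).1 hz.1
      obtain ⟨j, rfl⟩ := (hcm z).1 hz.2.1
      obtain ⟨t, h1, -⟩ := (hsqR i j).1 hz
      exact ⟨t, by rw [h1, zpow_natCast]⟩
    · rintro ⟨n, rfl⟩
      refine ⟨ga B ^ ((n : ℤ) ^ 2), ?_⟩
      rw [← zpow_natCast]
      exact (hsqR _ _).2 ⟨n, rfl, rfl⟩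
  have hmu : ∀ (x y : ℕ) (z : ℤ), MuR B (gb B) (ga B) (ga B ^ x) (ga B ^ y) (ga B ^ z) ↔
      z = (x : ℤ) * y := by
    intro x y z
    have hsx : ∀ (n : ℕ) (s : GG B), SqR B (gb B) (ga B) (ga B ^ n) s ↔
        s = ga B ^ ((n : ℤ) ^ 2) := by
      intro n s
      constructor
      · intro hs
        obtain ⟨j, rfl⟩ := (hcm s).1 hs.2.1
        rw [← zpow_natCast] at hs
        obtain ⟨t, h1, h2⟩ := (hsqR _ _).1 hs
        rw [h2, ← h1]
      · rintro rfl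
        rw [← zpow_natCast]
        exact (hsqR _ _).2 ⟨n, rfl, rfl⟩
    constructor
    · rintro ⟨s, s1, s2, h1, h2, h3, h4⟩
      rw [← pow_add] at h1
      rw [(hsx _ _).1 h1, (hsx _ _).1 h2, (hsx _ _).1 h3, ← zpow_add, ← zpow_add, ← zpow_add] at h4
      have h5 := hinj _ _ h4
      push_cast at h5
      nlinarith
    · rintro rfl
      refine ⟨ga B ^ (((x + y : ℕ) : ℤ) ^ 2), ga B ^ ((x : ℤ) ^ 2), ga B ^ ((y : ℤ) ^ 2), ?_,
        (hsx _ _).2 rfl, (hsx _ _).2 rfl, ?_⟩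
      · rw [← pow_add]
        exact (hsx _ _).2 rfl
      · rw [← zpow_add, ← zpow_add, ← zpow_add]
        congr 1
        push_cast
        ring
  have hle : ∀ x y : ℕ, LeR B (gb B) (ga B) (ga B ^ x) (ga B ^ y) ↔ x ≤ y := by
    intro x y
    constructor
    · rintro ⟨t, ht, h1⟩
      obtain ⟨n, rfl⟩ := (hnm t).1 ht
      rw [← pow_add, ← zpow_natCast, ← zpow_natCast] at h1
      have := hinj _ _ h1
      omega
    · intro hxy
      refine ⟨ga B ^ (y - x), (hnm _).2 ⟨_, rfl⟩, ?_⟩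
      rw [← pow_add]
      congr 1
      omega
  have hnat : ∀ i j : ℕ, ga B ^ i = ga B ^ j → i = j := by
    intro i j hij
    rw [← zpow_natCast, ← zpow_natCast] at hij
    have := hinj _ _ hij
    omega
  refine ⟨hstd, ⟨Wd_sur B, fun i j => Iff.rfl, Wd_cod B⟩, fun L hL => ?_⟩
  refine
    { ab := ?_, n1 := ?_, nr := ?_, nmul := ?_, tot := ?_, pos := ?_, r1 := ?_, disc := ?_,
      fn := ?_, sq0 := ?_, sqs := ?_, mu1 := ?_, mus := ?_, big := ?_, l1 := ?_, l2 := ?_,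
      l3 := ?_, l4 := ?_, l5 := ?_ }
  · intro x y hx hy
    obtain ⟨i, rfl⟩ := (hcm x).1 hx
    obtain ⟨j, rfl⟩ := (hcm y).1 hy
    rw [← zpow_add, ← zpow_add, add_comm]
  · exact (hnm _).2 ⟨0, (pow_zero _).symm⟩
  · exact (hnm _).2 ⟨1, (pow_one _).symm⟩
  · intro x y hx hy
    obtain ⟨i, rfl⟩ := (hnm x).1 hx
    obtain ⟨j, rfl⟩ := (hnm y).1 hy
    exact (hnm _).2 ⟨i + j, (pow_add _ _ _).symm⟩
  · intro x hx
    obtain ⟨i, rfl⟩ := (hcm x).1 hx
    rcases le_total 0 i with hi | hi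
    · left
      refine (hnm _).2 ⟨i.toNat, ?_⟩
      rw [← zpow_natCast, Int.toNat_of_nonneg hi]
    · right
      refine (hnm _).2 ⟨(-i).toNat, ?_⟩
      rw [← zpow_natCast, Int.toNat_of_nonneg (by omega), zpow_neg]
  · intro x hx hx'
    obtain ⟨i, rfl⟩ := (hnm x).1 hx
    obtain ⟨j, hj⟩ := (hnm _).1 hx'
    have h1 : ga B ^ (i + j) = ga B ^ 0 := by
      rw [pow_add, ← hj, mul_inv_cancel, pow_zero]
    have h2 := hnat _ _ h1
    have h3 : i = 0 := by omega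
    rw [h3, pow_zero]
  · intro h1
    have h2 : ga B ^ 1 = ga B ^ 0 := by rw [pow_one, pow_zero, h1]
    have := hnat _ _ h2
    omega
  · intro x hx
    obtain ⟨i, rfl⟩ := (hnm x).1 hx
    rcases i with _ | i
    · left; exact pow_zero _
    · right
      refine (hnm _).2 ⟨i, ?_⟩
      rw [pow_succ, mul_inv_cancel_right]
  · intro x z z' hz hz'
    obtain ⟨i, rfl⟩ := (hcm x).1 hz.1
    obtain ⟨j, rfl⟩ := (hcm z).1 hz.2.1
    obtain ⟨k, rfl⟩ := (hcm z').1 hz'.2.1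
    obtain ⟨t, h1, h2⟩ := (hsqR _ _).1 hz
    obtain ⟨t', h1', h2'⟩ := (hsqR _ _).1 hz'
    rw [h2, h2', ← h1, ← h1']
  · have h1 := (hsqR 0 0).2 ⟨0, rfl, rfl⟩
    rwa [zpow_zero] at h1
  · intro x z hz
    obtain ⟨i, rfl⟩ := (hcm x).1 hz.1
    obtain ⟨j, rfl⟩ := (hcm z).1 hz.2.1
    obtain ⟨t, h1, h2⟩ := (hsqR _ _).1 hz
    have h3 : ga B ^ i * ga B = ga B ^ (i + 1) := (zpow_add_one _ _).symm
    have h4 : ga B ^ j * ga B ^ i * ga B ^ i * ga B = ga B ^ (j + i + i + 1) := by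
      rw [← zpow_add, ← zpow_add, ← zpow_add_one]
    rw [h3, h4, hsqR]
    refine ⟨t + 1, by rw [h1]; push_cast; ring, by rw [h1, h2]; push_cast; ring⟩
  · intro x hx
    obtain ⟨n, rfl⟩ := (hnm x).1 hx
    have h1 := (hmu n 0 0).2 (by simp)
    rwa [pow_zero, zpow_zero] at h1
  · intro x y z hx hy hz h1
    obtain ⟨i, rfl⟩ := (hnm x).1 hx
    obtain ⟨j, rfl⟩ := (hnm y).1 hy
    obtain ⟨k, rfl⟩ := (hnm z).1 hz
    have h2 : ga B ^ j * ga B = ga B ^ (j + 1) := (pow_succ _ _).symm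
    have h3 : ga B ^ k * ga B ^ i = ga B ^ (((k + i : ℕ) : ℤ)) := by rw [zpow_natCast, pow_add]
    rw [← zpow_natCast (ga B) k, hmu] at h1
    rw [h2, h3, hmu]
    push_cast
    rw [h1]
    ring
  · intro x hx
    obtain ⟨i, rfl⟩ := (hnm x).1 hx
    refine ⟨ga B ^ (i * i), (hnm _).2 ⟨_, rfl⟩, ?_⟩
    intro y u hy hu h1 h2
    obtain ⟨j, rfl⟩ := (hnm y).1 hy
    obtain ⟨k, rfl⟩ := (hnm u).1 hu
    rw [hle] at h1 ⊢
    rw [← zpow_natCast (ga B) k, hmu] at h2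
    have h3 : k = i * j := by exact_mod_cast h2
    rw [h3]
    exact Nat.mul_le_mul_left _ h1
  · intro g
    obtain ⟨n, hn⟩ := LleG_ex B g
    exact ⟨ga B ^ n, (hnm _).2 ⟨n, rfl⟩, (hL g n).2 hn⟩
  · intro g h x y hx hy h1 h2
    obtain ⟨i, rfl⟩ := (hnm x).1 hx
    obtain ⟨j, rfl⟩ := (hnm y).1 hy
    rw [← pow_add, hL]
    exact LleG_mul B g h i j ((hL g i).1 h1) ((hL h j).1 h2)
  · intro g x hx h1
    obtain ⟨i, rfl⟩ := (hnm x).1 hx
    rw [hL] at h1 ⊢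
    exact LleG_inv B g i h1
  · intro g x y hx hy h1
    obtain ⟨i, rfl⟩ := (hnm x).1 hx
    obtain ⟨j, rfl⟩ := (hnm y).1 hy
    rw [← pow_add, hL]
    exact LleG_mono B g i _ (by omega) ((hL g i).1 h1)
  · intro x hx
    obtain ⟨i, rfl⟩ := (hnm x).1 hx
    have hI : Infinite (GG B) := Infinite.of_injective (fun n : ℕ => ga B ^ n) hnat
    obtain ⟨g, hg⟩ := (LleG_fin B i).exists_notMem
    exact ⟨g, fun h1 => hg ((hL g i).1 h1)⟩

end Pool.Agent.H196.QF
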